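import Pool.Agent.Helper70.MB.Goals

open MeasureTheory Set Metric
open scoped ENNReal FourierTransform Topology ContDiff
open Pool.Agent.Results.MP_91ee6f_gt
open Pool.Agent.Helper70.MB

namespace Pool.Agent.Helper47.MBP

lemma sum_quarter_le (j : ℕ) : ∑ i ∈ Finset.range j, (1 / 4 : ℝ) ^ i ≤ 2 := by
  have h : ∑ i ∈ Finset.range j, (1 / 4 : ℝ) ^ i ≤ (1 - 1 / 4 : ℝ)⁻¹ := by
    have := (summable_geometric_of_lt_one (by norm_num : (0:ℝ) ≤ 1/4) (by norm_num)).sum_le_tsum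
      (Finset.range j) (fun i _ => by positivity)
    rwa [tsum_geometric_of_lt_one (by norm_num) (by norm_num)] at this
  exact h.trans (by norm_num)

theorem seqs : SEQS := by
  intro n C hC
  set b : ℕ := 2 * n + 1 with hb
  set d : ℕ := 2 * n + 2 with hd
  set γ : ℕ := d * (n + 1) with hγ
  have hγb : b + 1 ≤ γ := by rw [hγ, hd, hb]; nlinarith
  have hγn : n + 1 ≤ γ := by rw [hγ, hd]; nlinarith
  set θ₀ : ℝ := min 1 (1 / (2 * C * 4 ^ γ)) with hθ₀
  have hθ₀pos : 0 < θ₀ := by rw [hθ₀]; positivity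
  have hθ₀1 : θ₀ ≤ 1 := min_le_left _ _
  have hθ₀2 : C * θ₀ * 4 ^ γ ≤ 1 / 2 := by
    have h1 : θ₀ ≤ 1 / (2 * C * 4 ^ γ) := min_le_right _ _
    have h2 : C * θ₀ * 4 ^ γ ≤ C * (1 / (2 * C * 4 ^ γ)) * 4 ^ γ := by gcongr
    refine h2.trans (le_of_eq ?_)
    field_simp
  set ε' : ℝ := min 1 (min (1 / (8 * C * 4 ^ b)) (1 / (2 * C ^ 2 / θ₀ ^ n * 4 ^ (3 * γ)))) with hε'
  have hε'pos : 0 < ε' := by rw [hε']; positivity
  have hε'1 : ε' ≤ 1 := min_le_left _ _
  have hε'2 : 2 * C * ε' * 4 ^ b ≤ 1 / 4 := by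
    have h1 : ε' ≤ 1 / (8 * C * 4 ^ b) := (min_le_right _ _).trans (min_le_left _ _)
    have h2 : 2 * C * ε' * 4 ^ b ≤ 2 * C * (1 / (8 * C * 4 ^ b)) * 4 ^ b := by gcongr
    refine h2.trans (le_of_eq ?_)
    field_simp
    norm_num
  have hε'3 : C ^ 2 / θ₀ ^ n * ε' * 4 ^ (3 * γ) ≤ 1 / 2 := by
    have h1 : ε' ≤ 1 / (2 * C ^ 2 / θ₀ ^ n * 4 ^ (3 * γ)) := (min_le_right _ _).trans (min_le_right _ _)
    have h2 : C ^ 2 / θ₀ ^ n * ε' * 4 ^ (3 * γ) ≤
        C ^ 2 / θ₀ ^ n * (1 / (2 * C ^ 2 / θ₀ ^ n * 4 ^ (3 * γ))) * 4 ^ (3 * γ) := by gcongr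
    refine h2.trans (le_of_eq ?_)
    field_simp
  refine ⟨ε' / 4 ^ γ, by positivity, ?_⟩
  intro Φ hΦ h0 h1 hstep
  have key : ∀ j, Φ j ≤ ε' / 4 ^ (γ * j) := by
    intro j
    induction j using Nat.strong_induction_on with
    | _ j ih =>
      match j, ih with
      | 0, _ =>
        refine h0.trans ?_
        simp only [mul_zero, pow_zero, div_one]
        exact div_le_self hε'pos.le (one_le_pow₀ (by norm_num))
      | 1, _ =>
        simpa using h1
      | (j + 2), ih =>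
        have hsum : C * ∑ i ∈ Finset.range (j + 1), 4 ^ (b * (i + 1)) * Φ i ≤ 1 / 4 := by
          have h2 : ∑ i ∈ Finset.range (j + 1), (4:ℝ) ^ (b * (i + 1)) * Φ i ≤
              ∑ i ∈ Finset.range (j + 1), (ε' * 4 ^ b) * (1 / 4 : ℝ) ^ i := by
            refine Finset.sum_le_sum fun i hi => ?_
            have hi' : i < j + 2 := by
              have := Finset.mem_range.1 hi
              omega
            have h3 := ih i hi'
            have h4 : (4:ℝ) ^ (b * (i + 1)) * Φ i ≤ 4 ^ (b * (i + 1)) * (ε' / 4 ^ (γ * i)) := by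
              gcongr
            refine h4.trans ?_
            have h5 : (4:ℝ) ^ ((b + 1) * i) ≤ 4 ^ (γ * i) :=
              pow_le_pow_right₀ (by norm_num) (Nat.mul_le_mul_right _ hγb)
            have h6 : (4:ℝ) ^ (b * (i + 1)) * (ε' / 4 ^ (γ * i)) ≤
                4 ^ (b * (i + 1)) * (ε' / 4 ^ ((b + 1) * i)) := by
              gcongr
            refine h6.trans (le_of_eq ?_)
            have e1 : (4:ℝ) ^ ((b + 1) * i) = 4 ^ (b * i) * 4 ^ i := by
              rw [← pow_add]; congr 1; ring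
            have e2 : (4:ℝ) ^ (b * (i + 1)) = 4 ^ (b * i) * 4 ^ b := by
              rw [← pow_add]; congr 1
            rw [e1, e2, one_div, inv_pow]
            have h7 : (4:ℝ) ^ (b * i) ≠ 0 := by positivity
            have h8 : (4:ℝ) ^ i ≠ 0 := by positivity
            generalize (4:ℝ) ^ (b * i) = u at h7 ⊢
            generalize (4:ℝ) ^ i = v at h8 ⊢
            generalize (4:ℝ) ^ b = w
            field_simp
          calc C * ∑ i ∈ Finset.range (j + 1), 4 ^ (b * (i + 1)) * Φ i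
              ≤ C * ∑ i ∈ Finset.range (j + 1), (ε' * 4 ^ b) * (1 / 4 : ℝ) ^ i := by gcongr
            _ = C * (ε' * 4 ^ b) * ∑ i ∈ Finset.range (j + 1), (1 / 4 : ℝ) ^ i := by
                rw [← Finset.mul_sum]; ring
            _ ≤ C * (ε' * 4 ^ b) * 2 := by
                have := sum_quarter_le (j + 1)
                gcongr
            _ = 2 * C * ε' * 4 ^ b := by ring
            _ ≤ 1 / 4 := hε'2
        have hθ : 0 < θ₀ / 4 ^ (d * (j + 1)) := by positivity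
        have hθ1 : θ₀ / 4 ^ (d * (j + 1)) ≤ 1 :=
          (div_le_self hθ₀pos.le (one_le_pow₀ (by norm_num))).trans hθ₀1
        have h2 := hstep (j + 1) (by omega) hsum (θ₀ / 4 ^ (d * (j + 1))) hθ hθ1
        have h3 := ih (j + 1) (by omega)
        have h4 := ih j (by omega)
        have h40 := hΦ j
        rw [show j + 1 - 1 = j from rfl] at h2
        have h5 : Φ j ^ 2 ≤ (ε' / 4 ^ (γ * j)) ^ 2 := by gcongr
        have h6 : Φ (j + 1 + 1) ≤ C * 4 ^ (d * (j + 1)) *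
            (θ₀ / 4 ^ (d * (j + 1)) * (ε' / 4 ^ (γ * (j + 1))) +
              C / (θ₀ / 4 ^ (d * (j + 1))) ^ n * (ε' / 4 ^ (γ * j)) ^ 2) := by
          refine h2.trans ?_
          gcongr
        have e1 : C * 4 ^ (d * (j + 1)) * (θ₀ / 4 ^ (d * (j + 1)) * (ε' / 4 ^ (γ * (j + 1)))) =
            (C * θ₀ * 4 ^ γ) * (ε' / 4 ^ (γ * (j + 2))) := by
          have : (4:ℝ) ^ (γ * (j + 2)) = 4 ^ γ * 4 ^ (γ * (j + 1)) := by
            rw [← pow_add]; congr 1; ring
          rw [this]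
          field_simp
        have e2 : C * 4 ^ (d * (j + 1)) *
            (C / (θ₀ / 4 ^ (d * (j + 1))) ^ n * (ε' / 4 ^ (γ * j)) ^ 2) =
            (C ^ 2 / θ₀ ^ n * ε' * 4 ^ (3 * γ)) * (ε' / 4 ^ (γ * (j + 2))) := by
          have e3 : (4:ℝ) ^ (d * (j + 1)) * (4 ^ (d * (j + 1))) ^ n = 4 ^ (γ * (j + 1)) := by
            rw [← pow_mul, ← pow_add]; congr 1; rw [hγ]; ring
          have e4 : (4:ℝ) ^ (3 * γ) * (4 ^ (γ * j)) ^ 2 = 4 ^ (γ * (j + 1)) * 4 ^ (γ * (j + 2)) := by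
            rw [← pow_mul, ← pow_add, ← pow_add]; congr 1; ring
          rw [div_pow, div_pow, div_div_eq_mul_div]
          have : C * 4 ^ (d * (j + 1)) * (C * (4 ^ (d * (j + 1))) ^ n / θ₀ ^ n *
              (ε' ^ 2 / (4 ^ (γ * j)) ^ 2)) =
              C ^ 2 / θ₀ ^ n * ε' ^ 2 * (4 ^ (d * (j + 1)) * (4 ^ (d * (j + 1))) ^ n) /
                (4 ^ (γ * j)) ^ 2 := by
            field_simp
          rw [this, e3]
          rw [div_eq_iff (by positivity)]
          have h7 : C ^ 2 / θ₀ ^ n * ε' * 4 ^ (3 * γ) * (ε' / 4 ^ (γ * (j + 2))) *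
              (4 ^ (γ * j)) ^ 2 =
              C ^ 2 / θ₀ ^ n * ε' ^ 2 * (4 ^ (3 * γ) * (4 ^ (γ * j)) ^ 2) / 4 ^ (γ * (j + 2)) := by
            field_simp
          rw [h7, e4]
          field_simp
        rw [mul_add, e1, e2] at h6
        have h8 : 0 ≤ ε' / 4 ^ (γ * (j + 2)) := by positivity
        calc Φ (j + 2) ≤ _ := h6
          _ ≤ 1 / 2 * (ε' / 4 ^ (γ * (j + 2))) + 1 / 2 * (ε' / 4 ^ (γ * (j + 2))) := by
              gcongr
          _ = ε' / 4 ^ (γ * (j + 2)) := by ring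
  intro j
  refine (key j).trans ?_
  have h1 : (4:ℝ) ^ ((n + 1) * j) ≤ 4 ^ (γ * j) :=
    pow_le_pow_right₀ (by norm_num) (Nat.mul_le_mul_right _ hγn)
  gcongr

end Pool.Agent.Helper47.MBP
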